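import Mathlib.Analysis.SpecialFunctions.Pow.Asymptotics
import Mathlib.Analysis.SpecialFunctions.Pow.Continuity
import Mathlib.Analysis.SpecialFunctions.Trigonometric.Bounds
import Mathlib.MeasureTheory.Integral.IntervalIntegral.FundThmCalculus
import Mathlib.Topology.MetricSpace.Lipschitz
import Mathlib.Topology.Instances.EReal.Lemmas
import Mathlib.Analysis.Calculus.Deriv.Pow

/-! Heavy-ball in dimension one: rate lemma, quadratics, interpolation. -/

open Filter Topology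

namespace Pool.Agent.Work.MP_a6d20f_an

/-- Some scalar `L`-smooth `μ`-strongly convex function and heavy-ball trajectory have
asymptotic rate at least `ρ`. -/
def Slow (μ L γ β ρ : ℝ) : Prop :=
  ∃ (f : ℝ → ℝ) (xs : ℝ) (x : ℕ → ℝ), Differentiable ℝ f ∧
    (∀ a b : ℝ, a ≠ b →
      μ ≤ (deriv f a - deriv f b) / (a - b) ∧ (deriv f a - deriv f b) / (a - b) ≤ L) ∧
    (∀ a : ℝ, f xs ≤ f a) ∧
    (∀ t : ℕ, x (t + 2) = (1 + β) * x (t + 1) - β * x t - γ * deriv f (x (t + 1))) ∧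
    (ρ : EReal) ≤ limsup (fun t : ℕ => ((|x t - xs| ^ ((1 : ℝ) / t) : ℝ) : EReal)) atTop

lemma Slow.mono {μ L γ β ρ ρ' : ℝ} (h : Slow μ L γ β ρ) (h' : ρ' ≤ ρ) : Slow μ L γ β ρ' := by
  obtain ⟨f, xs, x, h1, h2, h3, h4, h5⟩ := h
  exact ⟨f, xs, x, h1, h2, h3, h4, le_trans (EReal.coe_le_coe_iff.2 h') h5⟩

/-- If `c ρ^t ≤ u t` infinitely often then `limsup (u t)^(1/t) ≥ ρ`. -/
lemma le_limsup_root (u : ℕ → ℝ) (c ρ : ℝ) (hc : 0 < c) (hρ : 0 ≤ ρ)
    (h : ∃ᶠ t in atTop, c * ρ ^ t ≤ u t) :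
    (ρ : EReal) ≤ limsup (fun t : ℕ => (((u t) ^ ((1 : ℝ) / t) : ℝ) : EReal)) atTop := by
  have h1 : Tendsto (fun t : ℕ => c ^ ((1 : ℝ) / t) * ρ) atTop (𝓝 ρ) := by
    have h0 : Tendsto (fun t : ℕ => (1 : ℝ) / t) atTop (𝓝 0) := tendsto_one_div_atTop_nhds_zero_nat
    have h2 : Tendsto (fun t : ℕ => c ^ ((1 : ℝ) / t)) atTop (𝓝 (c ^ (0 : ℝ))) :=
      (Real.continuousAt_const_rpow hc.ne').tendsto.comp h0
    rw [Real.rpow_zero] at h2
    simpa using h2.mul_const ρ
  refine le_of_forall_lt_imp_le_of_dense fun r hr => ?_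
  refine le_limsup_of_frequently_le' ?_
  have h3 : ∀ᶠ t : ℕ in atTop, r < ((c ^ ((1 : ℝ) / t) * ρ : ℝ) : EReal) :=
    (EReal.tendsto_coe.2 h1).eventually (lt_mem_nhds hr)
  refine (h.and_eventually (h3.and (eventually_gt_atTop 0))).mono ?_
  rintro t ⟨ht, hr', ht0⟩
  refine hr'.le.trans (EReal.coe_le_coe_iff.2 ?_)
  have htpos : (0 : ℝ) < t := by exact_mod_cast ht0
  have e : c ^ ((1 : ℝ) / t) * ρ = (c * ρ ^ t) ^ ((1 : ℝ) / t) := by
    rw [Real.mul_rpow hc.le (by positivity), ← Real.rpow_natCast, ← Real.rpow_mul hρ]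
    rw [mul_one_div_cancel htpos.ne', Real.rpow_one]
  rw [e]
  exact Real.rpow_le_rpow (by positivity) ht (by positivity)

/-- Quadratics: any solution of the linear recursion is a heavy-ball trajectory. -/
lemma slow_of_quadratic {μ L γ β : ℝ} (l : ℝ) (h1 : μ ≤ l) (h2 : l ≤ L) (hl : 0 ≤ l) (x : ℕ → ℝ)
    (hx : ∀ t, x (t + 2) = (1 + β - γ * l) * x (t + 1) - β * x t) (c ρ : ℝ) (hc : 0 < c)
    (hρ : 0 ≤ ρ) (h : ∃ᶠ t in atTop, c * ρ ^ t ≤ |x t|) : Slow μ L γ β ρ := by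
  have hd : ∀ a : ℝ, HasDerivAt (fun y : ℝ => l / 2 * y ^ 2) (l * a) a := fun a => by
    have := (hasDerivAt_pow 2 a).const_mul (l / 2)
    refine this.congr_deriv ?_
    norm_num; ring
  have hd' : ∀ a : ℝ, deriv (fun y : ℝ => l / 2 * y ^ 2) a = l * a := fun a => (hd a).deriv
  refine ⟨fun y => l / 2 * y ^ 2, 0, x, fun a => (hd a).differentiableAt, ?_, ?_, ?_, ?_⟩
  · intro a b hab
    have : (l * a - l * b) / (a - b) = l := by
      field_simp [sub_ne_zero.2 hab]
    rw [hd', hd', this]; exact ⟨h1, h2⟩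
  · intro a
    have : 0 ≤ l / 2 * a ^ 2 := by positivity
    simpa using this
  · intro t
    rw [hd', hx]; ring
  · simpa using le_limsup_root (fun t => |x t|) c ρ hc hρ h

/-- A real characteristic root. -/
lemma slow_of_root {μ L γ β : ℝ} (l : ℝ) (h1 : μ ≤ l) (h2 : l ≤ L) (hl : 0 ≤ l) (r : ℝ)
    (hr : r ^ 2 = (1 + β - γ * l) * r - β) : Slow μ L γ β |r| := by
  refine slow_of_quadratic l h1 h2 hl (fun t => r ^ t) (fun t => ?_) 1 _ one_pos (abs_nonneg _)
    (Eventually.frequently (Eventually.of_forall fun t => by simp [abs_pow]))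
  calc r ^ (t + 2) = r ^ t * r ^ 2 := by ring
    _ = _ := by rw [hr]; ring

/-- The linear recursion started at `0, 1`. -/
noncomputable def linSeq (a β : ℝ) : ℕ → ℝ
  | 0 => 0
  | 1 => 1
  | (t + 2) => a * linSeq a β (t + 1) - β * linSeq a β t

lemma linSeq_inv (a β : ℝ) (t : ℕ) :
    linSeq a β (t + 1) ^ 2 - a * linSeq a β (t + 1) * linSeq a β t + β * linSeq a β t ^ 2
      = β ^ t := by
  induction t with
  | zero => simp [linSeq]
  | succ n ih =>
    rw [pow_succ β n, ← ih]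
    simp only [linSeq]
    ring

/-- The rate is at least `√|β|`. -/
lemma slow_of_beta {μ L γ β ρ : ℝ} (hμ : 0 ≤ μ) (hL : μ ≤ L) (hρ : 0 ≤ ρ) (hρ1 : ρ ≤ 1)
    (h : ρ ^ 2 ≤ |β|) : Slow μ L γ β ρ := by
  set a := 1 + β - γ * μ with ha
  set D := 1 + |a| + |β| with hD
  have hD1 : 1 ≤ D := by rw [hD]; linarith [abs_nonneg a, abs_nonneg β]
  refine slow_of_quadratic μ le_rfl hL hμ (linSeq a β) (fun t => rfl) (1 / D) ρ (by positivity) hρ
    ?_
  rw [frequently_atTop]
  intro N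
  by_contra hcon
  push Not at hcon
  have h0 := hcon N le_rfl
  have h1 := hcon (N + 1) (Nat.le_succ N)
  have h1' : |linSeq a β (N + 1)| < 1 / D * ρ ^ N := by
    refine h1.trans_le ?_
    rw [pow_succ]
    have : 0 ≤ 1 / D * ρ ^ N := by positivity
    nlinarith
  set y := linSeq a β (N + 1)
  set z := linSeq a β N
  set M := 1 / D * ρ ^ N with hM
  have hinv : y ^ 2 - a * y * z + β * z ^ 2 = β ^ N := linSeq_inv a β N
  have hM0 : 0 < M := lt_of_le_of_lt (abs_nonneg _) h0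
  have b1 : |y| ^ 2 ≤ M ^ 2 := pow_le_pow_left₀ (abs_nonneg _) h1'.le 2
  have b2 : |z| ^ 2 ≤ M ^ 2 := pow_le_pow_left₀ (abs_nonneg _) h0.le 2
  have b3 : |y| * |z| ≤ M ^ 2 := by
    rw [sq]; exact mul_le_mul h1'.le h0.le (abs_nonneg _) hM0.le
  have b1' : |y| ^ 2 < M ^ 2 := pow_lt_pow_left₀ h1' (abs_nonneg _) two_ne_zero
  have b4 : |β| ^ N < D * M ^ 2 := by
    rw [← abs_pow, ← hinv]
    calc |y ^ 2 - a * y * z + β * z ^ 2| ≤ |y ^ 2| + |a * y * z| + |β * z ^ 2| :=
          (abs_add_le _ _).trans (add_le_add_left (abs_sub _ _) _)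
      _ = |y| ^ 2 + |a| * (|y| * |z|) + |β| * |z| ^ 2 := by
          simp only [abs_mul, abs_pow]; ring
      _ < M ^ 2 + |a| * M ^ 2 + |β| * M ^ 2 := by
          have := mul_le_mul_of_nonneg_left b3 (abs_nonneg a)
          have := mul_le_mul_of_nonneg_left b2 (abs_nonneg β)
          linarith
      _ = D * M ^ 2 := by rw [hD]; ring
  have b5 : (ρ ^ 2) ^ N ≤ |β| ^ N := pow_le_pow_left₀ (by positivity) h N
  have b6 : D * M ^ 2 = (ρ ^ 2) ^ N / D := by
    rw [hM, ← pow_mul, mul_comm 2 N, pow_mul]; field_simp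
  have b7 : (ρ ^ 2) ^ N / D ≤ (ρ ^ 2) ^ N := div_le_self (by positivity) hD1
  linarith

/-- Interpolation: data `(X t, G t)` with slopes in `[μ, L]` come from a function of the class. -/
lemma interpolate {μ L : ℝ} (hμ : 0 < μ) (hL : μ < L) (X G : ℕ → ℝ)
    (h : ∀ j k, 0 ≤ ((G j - μ * X j) - (G k - μ * X k)) * ((L * X j - G j) - (L * X k - G k))) :
    ∃ (f : ℝ → ℝ) (xs : ℝ), Differentiable ℝ f ∧
      (∀ a b : ℝ, a ≠ b →
        μ ≤ (deriv f a - deriv f b) / (a - b) ∧ (deriv f a - deriv f b) / (a - b) ≤ L) ∧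
      (∀ a : ℝ, f xs ≤ f a) ∧ ∀ t, deriv f (X t) = G t := by
  classical
  set m := (L + μ) / 2 with hm
  set d := (L - μ) / 2 with hd
  have hd0 : 0 ≤ d := by rw [hd]; linarith
  set W : ℕ → ℝ := fun t => G t - m * X t with hW
  have hWl : ∀ j k, |W j - W k| ≤ d * |X j - X k| := by
    intro j k
    rw [← abs_of_nonneg hd0, ← abs_mul]
    refine sq_le_sq.1 ?_
    have := h j k
    simp only [hW, hm, hd]
    nlinarith
  set φ0 : ℝ → ℝ := fun y => if hy : ∃ k, X k = y then W (Classical.choose hy) else 0 with hφ0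
  have hφ0X : ∀ k, φ0 (X k) = W k := by
    intro k
    have hy : ∃ j, X j = X k := ⟨k, rfl⟩
    have h1 := hWl (Classical.choose hy) k
    rw [Classical.choose_spec hy, sub_self, abs_zero, mul_zero] at h1
    simp only [hφ0, dif_pos hy]
    exact sub_eq_zero.1 (abs_nonpos_iff.1 h1)
  have hlip : LipschitzOnWith ⟨d, hd0⟩ φ0 (Set.range X) := by
    refine LipschitzOnWith.of_dist_le_mul ?_
    rintro _ ⟨j, rfl⟩ _ ⟨k, rfl⟩
    rw [hφ0X, hφ0X, Real.dist_eq, Real.dist_eq]
    exact hWl j k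
  obtain ⟨φ, hφ, hφeq⟩ := hlip.extend_real
  set g : ℝ → ℝ := fun y => φ y + m * y with hg
  have hgc : Continuous g := hφ.continuous.add (continuous_const.mul continuous_id)
  have hφ' : ∀ a b, |φ a - φ b| ≤ d * |a - b| := fun a b => by
    have := hφ.dist_le_mul a b
    rwa [Real.dist_eq, Real.dist_eq] at this
  have hs : ∀ a b, b ≤ a → μ * (a - b) ≤ g a - g b ∧ g a - g b ≤ L * (a - b) := by
    intro a b hab
    have h1 := abs_le.1 (hφ' a b)
    rw [abs_of_nonneg (sub_nonneg.2 hab)] at h1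
    simp only [hg]
    rw [hd] at h1
    rw [hm]
    constructor <;> nlinarith [h1.1, h1.2]
  obtain ⟨xs, hxs⟩ : ∃ xs, g xs = 0 := by
    set T := |g 0| / μ with hT
    have hT0 : 0 ≤ T := by positivity
    have hT1 : μ * T = |g 0| := by rw [hT]; field_simp
    have h1 := (hs T 0 hT0).1
    have h2 := (hs 0 (-T) (by linarith)).1
    have h3 : (0 : ℝ) ∈ Set.Icc (g (-T)) (g T) := by
      constructor
      · have := le_abs_self (g 0); nlinarith
      · have := neg_abs_le (g 0); nlinarith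
    obtain ⟨z, -, hz⟩ := intermediate_value_Icc (by linarith : -T ≤ T) hgc.continuousOn h3
    exact ⟨z, hz⟩
  have hder : ∀ a, HasDerivAt (fun y => ∫ s in xs..y, g s) (g a) a := fun a =>
    (hgc.integral_hasStrictDerivAt xs a).hasDerivAt
  have hder' : ∀ a, deriv (fun y => ∫ s in xs..y, g s) a = g a := fun a => (hder a).deriv
  refine ⟨fun y => ∫ s in xs..y, g s, xs, fun a => (hder a).differentiableAt, ?_, ?_, ?_⟩
  · intro a b hab
    rw [hder', hder']
    rcases lt_or_gt_of_ne hab with h1 | h1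
    · have h2 := hs b a h1.le
      have e : (g a - g b) / (a - b) = (g b - g a) / (b - a) := by
        rw [← neg_sub (g b), ← neg_sub b, neg_div_neg_eq]
      rw [e, le_div_iff₀ (by linarith), div_le_iff₀ (by linarith)]
      exact h2
    · rw [le_div_iff₀ (by linarith), div_le_iff₀ (by linarith)]
      exact hs a b h1.le
  · intro a
    simp only [intervalIntegral.integral_same]
    rcases le_total xs a with h1 | h1
    · refine intervalIntegral.integral_nonneg h1 fun s hs' => ?_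
      have := (hs s xs hs'.1).1
      have := mul_nonneg hμ.le (sub_nonneg.2 hs'.1)
      linarith
    · rw [intervalIntegral.integral_symm, ← intervalIntegral.integral_neg]
      refine intervalIntegral.integral_nonneg h1 fun s hs' => ?_
      have := (hs xs s hs'.2).1
      have := mul_nonneg hμ.le (sub_nonneg.2 hs'.2)
      linarith
  · intro t
    rw [hder']
    have : φ (X t) = W t := by rw [← hφeq ⟨t, rfl⟩, hφ0X]
    simp only [hg, this, hW]; ring

end Pool.Agent.Work.MP_a6d20f_an
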