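import Pool.Agent.Work.MP_a6d20f_an.Basic
import Mathlib.Analysis.Real.Pi.Bounds

/-! One-dimensional cycles of heavy-ball: the projection of a roots-of-unity cycle. -/

open Filter Topology Real

namespace Pool.Agent.Work.MP_a6d20f_an

lemma abs_sin_odd (K : ℕ) (hK : 0 < K) (n : ℕ) :
    1 / (K : ℝ) ≤ |sin ((2 * n + 1) * (π / (2 * K)))| := by
  have hK' : (0 : ℝ) < K := by exact_mod_cast hK
  obtain ⟨q, r, hr, rfl⟩ : ∃ q r, r < K ∧ n = r + q * K :=
    ⟨n / K, n % K, Nat.mod_lt _ hK, by rw [mul_comm]; exact (Nat.mod_add_div n K).symm⟩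
  have e : (2 * ((r + q * K : ℕ) : ℝ) + 1) * (π / (2 * K))
      = (2 * r + 1) * (π / (2 * K)) + q * π := by
    push_cast; field_simp; ring
  rw [e, sin_add_nat_mul_pi, abs_mul, abs_pow, abs_neg, abs_one, one_pow, one_mul]
  refine le_trans ?_ (le_abs_self _)
  have hr' : (r : ℝ) + 1 ≤ K := by exact_mod_cast hr
  have hr0 : (0 : ℝ) ≤ r := by positivity
  set w := π / (2 * K) with hw
  have hw0 : 0 < w := by positivity
  have hwK : w * K = π / 2 := by rw [hw]; field_simp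
  have e2 : 1 / (K : ℝ) = 2 / π * w := by rw [hw]; field_simp
  have key : ∀ y, w ≤ y → y ≤ π / 2 → 1 / (K : ℝ) ≤ sin y := fun y h1 h2 => by
    rw [e2]
    exact le_trans (mul_le_mul_of_nonneg_left h1 (by positivity)) (mul_le_sin (by linarith only [hw0, h1]) h2)
  rcases le_total ((2 * r + 1) * w) (π / 2) with h | h
  · exact key _ (by linarith only [hw0, mul_nonneg_of_nonpos_of_nonpos (Mathlib.Tactic.Linarith.sub_nonpos_of_le (Mathlib.Tactic.Linarith.natCast_nonneg ℝ r)) (le_of_lt (Mathlib.Tactic.Linarith.sub_neg_of_lt hw0))]) h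
  · rw [← sin_pi_sub]
    exact key _ (by linarith only [hwK, hr', hw0, mul_nonneg_of_nonpos_of_nonpos (Mathlib.Tactic.Linarith.sub_nonpos_of_le hr') (le_of_lt (Mathlib.Tactic.Linarith.sub_neg_of_lt hw0))]) (by linarith only [h])

lemma sign_aux (P Q I s c e : ℝ) (hI : 0 ≤ I) (hc : |c| ≤ 1) (_he : 0 ≤ e) (hs : e ≤ |s|)
    (hP : I ≤ P * e) (hQ : I ≤ Q * e) (hP0 : 0 ≤ P) (hQ0 : 0 ≤ Q) :
    0 ≤ (P * s - I * c) * (Q * s + I * c) := by
  have h1 := abs_le.1 hc
  have h2 : I * c ≤ I := by linarith only [hI, h1, mul_nonneg_of_nonpos_of_nonpos (Mathlib.Tactic.Linarith.sub_nonpos_of_le hI) (Mathlib.Tactic.Linarith.sub_nonpos_of_le h1.right)]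
  have h3 : -I ≤ I * c := by linarith only [hI, h1, mul_nonneg_of_nonpos_of_nonpos (Mathlib.Tactic.Linarith.sub_nonpos_of_le hI) (Mathlib.Tactic.Linarith.sub_nonpos_of_le h1.left)]
  rcases le_total 0 s with h | h
  · rw [abs_of_nonneg h] at hs
    have := mul_le_mul_of_nonneg_left hs hP0
    have := mul_le_mul_of_nonneg_left hs hQ0
    exact mul_nonneg (by linarith) (by linarith)
  · rw [abs_of_nonpos h] at hs
    have := mul_le_mul_of_nonneg_left hs hP0
    have := mul_le_mul_of_nonneg_left hs hQ0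
    exact mul_nonneg_of_nonpos_of_nonpos (by linarith) (by linarith)

/-- A cycle of length `K` on a scalar function. -/
lemma slow_of_cycle {μ L γ β : ℝ} (hμ : 0 < μ) (hL : μ < L) (hγ : 0 < γ) (K : ℕ) (hK : 3 ≤ K)
    (hβ : β ≤ 1)
    (hP : 2 * π * (1 - β) ≤ (1 + β) * (1 - cos (2 * π / K)) - γ * μ)
    (hQ : 2 * π * (1 - β) ≤ γ * L - (1 + β) * (1 - cos (2 * π / K))) :
    Slow μ L γ β 1 := by
  have hK0 : 0 < K := by omega
  have hK' : (3 : ℝ) ≤ K := by exact_mod_cast hK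
  set θ := 2 * π / K with hθ
  set w := π / (2 * K) with hw
  have hθw : θ = 4 * w := by rw [hθ, hw]; field_simp; norm_num
  have hw0 : 0 < w := by positivity
  have hwK : w * K = π / 2 := by rw [hw]; field_simp
  have hw6 : w ≤ π / 6 := by linarith only [hwK, hK', hw0, mul_nonneg_of_nonpos_of_nonpos (Mathlib.Tactic.Linarith.sub_nonpos_of_le hK') (le_of_lt (Mathlib.Tactic.Linarith.sub_neg_of_lt hw0))]
  set R := (1 + β) * (1 - cos θ) with hR
  set I := (1 - β) * sin θ with hI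
  have hsin0 : 0 ≤ sin θ := sin_nonneg_of_nonneg_of_le_pi (by linarith only [hθw, hw0]) (by linarith only [hθw, hw0, hw6, pi_pos])
  have hI0 : 0 ≤ I := mul_nonneg (by linarith only [hβ]) hsin0
  have hI1 : I ≤ 2 * π * (1 - β) * (1 / K) := by
    have : sin θ ≤ θ := sin_le (by linarith only [hθw, hw0])
    calc I ≤ (1 - β) * θ := mul_le_mul_of_nonneg_left this (by linarith only [hβ])
      _ = _ := by rw [hθ]; ring
  have h2π : 0 ≤ 2 * π * (1 - β) := mul_nonneg (by positivity) (by linarith only [hβ])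
  set X : ℕ → ℝ := fun t => cos (t * θ + w) with hX
  set G : ℕ → ℝ := fun t => (R * cos (t * θ + w) + I * sin (t * θ + w)) / γ with hG
  obtain ⟨f, xs, h1, h2, h3, h4⟩ := interpolate hμ hL X G (by
    intro j k
    set σ := ((j * θ + w) + (k * θ + w)) / 2 with hσ
    set δ := ((j * θ + w) - (k * θ + w)) / 2 with hδ
    have ec : cos (j * θ + w) - cos (k * θ + w) = -2 * sin σ * sin δ := cos_sub_cos _ _
    have es : sin (j * θ + w) - sin (k * θ + w) = 2 * sin δ * cos σ := sin_sub_sin _ _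
    have hσ' : σ = (2 * ((j + k : ℕ) : ℝ) + 1) * w := by rw [hσ, hθw]; push_cast; ring
    have hs : 1 / (K : ℝ) ≤ |sin σ| := by rw [hσ']; exact abs_sin_odd K hK0 _
    have key := sign_aux (R - γ * μ) (γ * L - R) I (sin σ) (cos σ) (1 / K) hI0 (abs_cos_le_one _)
      (by positivity) hs (hI1.trans (mul_le_mul_of_nonneg_right hP (by positivity)))
      (hI1.trans (mul_le_mul_of_nonneg_right hQ (by positivity))) (by linarith only [hP, h2π]) (by linarith only [hQ, h2π])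
    have e1 : (G j - μ * X j) - (G k - μ * X k) =
        (-2 * sin δ / γ) * ((R - γ * μ) * sin σ - I * cos σ) := by
      have : (G j - μ * X j) - (G k - μ * X k) =
          ((R - γ * μ) * (cos (j * θ + w) - cos (k * θ + w))
            + I * (sin (j * θ + w) - sin (k * θ + w))) / γ := by
        simp only [hG, hX]; field_simp; ring
      rw [this, ec, es]; field_simp; ring
    have e2 : (L * X j - G j) - (L * X k - G k) =
        (-2 * sin δ / γ) * ((γ * L - R) * sin σ + I * cos σ) := by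
      have : (L * X j - G j) - (L * X k - G k) =
          ((γ * L - R) * (cos (j * θ + w) - cos (k * θ + w))
            - I * (sin (j * θ + w) - sin (k * θ + w))) / γ := by
        simp only [hG, hX]; field_simp; ring
      rw [this, ec, es]; field_simp; ring
    rw [e1, e2, mul_mul_mul_comm]
    exact mul_nonneg (mul_self_nonneg _) key)
  refine ⟨f, xs, fun t => X (t + 1), h1, h2, h3, ?_, ?_⟩
  · intro t
    rw [h4]
    have a1 : X (t + 2 + 1) = cos (((t + 1 + 1 : ℕ) : ℝ) * θ + w + θ) := by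
      simp only [hX]; congr 1; push_cast; ring
    have a2 : X (t + 1) = cos (((t + 1 + 1 : ℕ) : ℝ) * θ + w - θ) := by
      simp only [hX]; congr 1; push_cast; ring
    simp only [a1, a2, hG]
    rw [cos_add _ θ, cos_sub _ θ]
    simp only [hX, hR, hI]
    field_simp
    ring
  · have hper : ∀ i n : ℕ, X (i + n * K) = X i := by
      intro i n
      simp only [hX]
      have : ((i + n * K : ℕ) : ℝ) * θ + w = (i * θ + w) + n * (2 * π) := by
        rw [hθ]; push_cast; field_simp; ring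
      rw [this, cos_add_nat_mul_two_pi]
    have hne : X 0 ≠ X 1 := by
      simp only [hX, Nat.cast_zero, zero_mul, zero_add, Nat.cast_one, one_mul]
      exact (cos_lt_cos_of_nonneg_of_le_pi hw0.le (by linarith only [hθw, hw0, hw6, pi_pos]) (by linarith only [hθw, hw0])).ne'
    obtain ⟨i, hi⟩ : ∃ i, X i ≠ xs := by
      by_cases h : X 0 = xs
      · exact ⟨1, fun h' => hne (h.trans h'.symm)⟩
      · exact ⟨0, h⟩
    have := le_limsup_root (fun t => |X (t + 1) - xs|) |X i - xs| 1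
      (abs_pos.2 (sub_ne_zero.2 hi)) zero_le_one (by
        rw [frequently_atTop]
        intro N
        refine ⟨i + (N + 1) * K - 1, ?_, ?_⟩
        · have : N + 1 ≤ (N + 1) * K := Nat.le_mul_of_pos_right _ hK0
          omega
        · have : 1 ≤ (N + 1) * K := Nat.mul_pos (Nat.succ_pos _) hK0
          have e : i + (N + 1) * K - 1 + 1 = i + (N + 1) * K := by omega
          simp only [e, hper, one_pow, mul_one, le_refl])
    exact this

/-- Choice of the cycle length. -/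
lemma exists_length (Γ : ℝ) (h0 : 0 < Γ) (h4 : Γ < 4) :
    ∃ K : ℕ, 3 ≤ K ∧ (2 * π / K) ^ 2 ≤ Γ / 2 ∧ 8 / 25 * Γ ≤ (2 * π / K) ^ 2 ∧ 2 * π / K ≤ π := by
  set s := √(Γ / 2) with hs
  have hs0 : 0 < s := sqrt_pos.2 (by linarith only [h0])
  have hs2 : s ^ 2 = Γ / 2 := sq_sqrt (by linarith)
  have hs3 : s < 3 / 2 := by (refine lt_of_not_ge fun h_nl => ?_; linarith only [h_nl, h4, hs2, hs0, mul_nonneg_of_nonpos_of_nonpos (le_of_lt (Mathlib.Tactic.Linarith.sub_neg_of_lt hs0)) (Mathlib.Tactic.Linarith.sub_nonpos_of_le h_nl)])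
  have hπ := pi_gt_three
  set K := ⌈2 * π / s⌉₊ with hK
  have h1 : 2 * π / s ≤ K := Nat.le_ceil _
  have h2 : (K : ℝ) < 2 * π / s + 1 := Nat.ceil_lt_add_one (by positivity)
  have h3 : (4 : ℝ) < 2 * π / s := by rw [lt_div_iff₀ hs0]; linarith only [hs3, hπ]
  have hK3 : (3 : ℝ) ≤ K := by linarith only [h1, h3]
  have hKpos : (0 : ℝ) < K := by linarith only [h1, h3]
  have h5 : 2 * π / K ≤ s := by
    rw [div_le_iff₀ hKpos]; rw [div_le_iff₀ hs0] at h1; linarith only [h1]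
  have h6 : 4 / 5 * s ≤ 2 * π / K := by
    rw [le_div_iff₀ hKpos]
    have : (K : ℝ) * s < 2 * π + s := by
      have := mul_lt_mul_of_pos_right h2 hs0
      rwa [add_mul, div_mul_cancel₀ _ hs0.ne', one_mul] at this
    linarith only [hs3, hπ, this]
  refine ⟨K, by exact_mod_cast hK3, ?_, ?_, by linarith only [hs3, hπ, h5]⟩
  · rw [← hs2]; exact pow_le_pow_left₀ (by positivity) h5 2
  · have := pow_le_pow_left₀ (by positivity) h6 2
    linarith only [hs2, this]

theorem slow_main {μ L γ β : ℝ} (hμ : 0 < μ) (hL : μ < L) (hγ : 0 < γ) :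
    Slow μ L γ β (1 - 128 * (μ / L)) := by
  have hL0 : 0 < L := by linarith
  set κ := μ / L with hκ
  have hκ0 : 0 < κ := by positivity
  set ρ := 1 - 128 * κ with hρ
  by_cases hρ0 : ρ ≤ 0
  · exact (slow_of_beta (ρ := 0) hμ.le hL.le le_rfl zero_le_one (by simp)).mono hρ0
  push Not at hρ0
  have hρ1 : ρ < 1 := by linarith only [hκ0]
  by_cases c1 : ρ ^ 2 ≤ |β|
  · exact slow_of_beta hμ.le hL.le hρ0.le hρ1.le c1
  by_cases c2 : ρ ^ 2 - (1 + β - γ * μ) * ρ + β ≤ 0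
  · set a := 1 + β - γ * μ with ha
    have hD : (2 * ρ - a) ^ 2 ≤ a ^ 2 - 4 * β := by linarith only [c2]
    have hD0 : 0 ≤ a ^ 2 - 4 * β := le_trans (sq_nonneg _) hD
    have h1 : 2 * ρ - a ≤ √(a ^ 2 - 4 * β) := le_sqrt_of_sq_le hD
    have h2 := sq_sqrt hD0
    refine (slow_of_root μ le_rfl hL.le hμ.le ((a + √(a ^ 2 - 4 * β)) / 2) ?_).mono ?_
    · rw [← ha]; nlinarith
    · exact le_trans (by linarith only [h1]) (le_abs_self _)
  by_cases c3 : ρ ^ 2 + (1 + β - γ * L) * ρ + β ≤ 0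
  · set a := 1 + β - γ * L with ha
    have hD : (2 * ρ + a) ^ 2 ≤ a ^ 2 - 4 * β := by linarith only [c3]
    have hD0 : 0 ≤ a ^ 2 - 4 * β := le_trans (sq_nonneg _) hD
    have h1 : 2 * ρ + a ≤ √(a ^ 2 - 4 * β) := le_sqrt_of_sq_le hD
    have h2 := sq_sqrt hD0
    refine (slow_of_root L hL.le le_rfl hL0.le ((a - √(a ^ 2 - 4 * β)) / 2) ?_).mono ?_
    · rw [← ha]; nlinarith
    · exact le_trans (by linarith only [h1]) (neg_le_abs _)
  push Not at c1 c2 c3
  set Γ := γ * L with hΓ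
  have hΓ0 : 0 < Γ := by positivity
  have hγμ : γ * μ = Γ * κ := by rw [hΓ, hκ]; field_simp
  have hβ1 : β < ρ ^ 2 := lt_of_le_of_lt (le_abs_self _) c1
  have hβ2 : β < ρ := by linarith only [hβ1, hκ0, hρ0, mul_pos_of_neg_of_neg (Mathlib.Tactic.Linarith.sub_neg_of_lt hκ0) (Mathlib.Tactic.Linarith.sub_neg_of_lt hρ0)]
  have d1 : 128 * (ρ - β) < Γ * ρ := by
    have : κ * (128 * (ρ - β)) < κ * (Γ * ρ) := by
      rw [hγμ] at c2
      have e : 128 * κ = 1 - ρ := by linarith only []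
      linarith only [c2]
    exact lt_of_mul_lt_mul_left this hκ0.le
  have d2 : 128 * 128 * κ < Γ := by
    have : ρ * (128 * 128 * κ) < ρ * Γ := by
      have e : 128 * κ = 1 - ρ := by linarith only []
      linarith only [hβ1, d1]
    exact lt_of_mul_lt_mul_left this hρ0.le
  have d3 : Γ < 4 := by
    have : ρ * Γ < ρ * 4 := by
      have h1 : (1 + ρ) * (ρ + β) ≤ (1 + ρ) * (ρ + ρ ^ 2) :=
        mul_le_mul_of_nonneg_left (by linarith only [hβ1]) (by linarith only [hκ0, hρ0])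
      have h2 : (1 + ρ) ^ 2 ≤ 4 := by linarith only [hκ0, hρ0, mul_pos_of_neg_of_neg (Mathlib.Tactic.Linarith.sub_neg_of_lt hκ0) (Mathlib.Tactic.Linarith.sub_neg_of_lt hκ0), mul_pos_of_neg_of_neg (Mathlib.Tactic.Linarith.sub_neg_of_lt hκ0) (Mathlib.Tactic.Linarith.sub_neg_of_lt hρ0)]
      have h3 : ρ * (1 + ρ) ^ 2 ≤ ρ * 4 := mul_le_mul_of_nonneg_left h2 hρ0.le
      linarith only [c3, h1, h3]
    exact lt_of_mul_lt_mul_left this hρ0.le
  have d4 : 1 - β ≤ Γ / 64 := by linarith only [hγμ, d1, d2, hμ, hγ, mul_pos_of_neg_of_neg (Mathlib.Tactic.Linarith.sub_neg_of_lt hμ) (Mathlib.Tactic.Linarith.sub_neg_of_lt hγ)]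
  have d5 : Γ * κ ≤ Γ / 4096 := by linarith only [hβ1, d1, hκ0, d2, d3, mul_pos_of_neg_of_neg (Mathlib.Tactic.Linarith.sub_neg_of_lt hκ0) (Mathlib.Tactic.Linarith.sub_neg_of_lt d2), mul_pos_of_neg_of_neg (Mathlib.Tactic.Linarith.sub_neg_of_lt hκ0) (Mathlib.Tactic.Linarith.sub_neg_of_lt d3)]
  obtain ⟨K, hK3, k1, k2, k3⟩ := exists_length Γ hΓ0 d3
  set θ := 2 * π / K with hθ
  have hθ0 : 0 ≤ θ := by positivity
  have cu : cos θ ≤ 1 - 2 / π ^ 2 * θ ^ 2 := cos_le_one_sub_mul_cos_sq (by rwa [abs_of_nonneg hθ0])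
  have cl : 1 - θ ^ 2 / 2 ≤ cos θ := one_sub_sq_div_two_le_cos
  have hπ : π < 3.15 := pi_lt_d2
  have hπ0 := pi_pos
  have hπ2 : 1 / 5 ≤ 2 / π ^ 2 := by
    rw [div_le_div_iff₀ (by norm_num) (by positivity)]; (refine le_of_not_gt fun h_nl => ?_; linarith only [h_nl, hπ, hκ0, d2, d3, k3, hθ0, mul_pos_of_neg_of_neg (Mathlib.Tactic.Linarith.sub_neg_of_lt hκ0) (Mathlib.Tactic.Linarith.sub_neg_of_lt h_nl), mul_pos_of_neg_of_neg (Mathlib.Tactic.Linarith.sub_neg_of_lt d2) (Mathlib.Tactic.Linarith.sub_neg_of_lt h_nl), mul_pos_of_neg_of_neg (Mathlib.Tactic.Linarith.sub_neg_of_lt d3) (Mathlib.Tactic.Linarith.sub_neg_of_lt h_nl), mul_nonneg_of_nonpos_of_nonpos (Mathlib.Tactic.Linarith.sub_nonpos_of_le k3) (le_of_lt (Mathlib.Tactic.Linarith.sub_neg_of_lt hπ)), mul_nonneg_of_nonpos_of_nonpos (Mathlib.Tactic.Linarith.sub_nonpos_of_le hθ0) (le_of_lt (Mathlib.Tactic.Linarith.sub_neg_of_lt hπ))])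
  have c4 : 8 / 125 * Γ ≤ 1 - cos θ := by
    have : 1 / 5 * θ ^ 2 ≤ 2 / π ^ 2 * θ ^ 2 := mul_le_mul_of_nonneg_right hπ2 (sq_nonneg _)
    linarith only [k2, cu, this]
  have c5 : 1 - cos θ ≤ Γ / 4 := by linarith only [k1, cl]
  have c6 : 2 * π * (1 - β) ≤ 2 * 3.15 * (Γ / 64) :=
    mul_le_mul (by linarith only [hπ]) d4 (by linarith only [hκ0, hβ2]) (by norm_num)
  have c7 : 31 / 16 * (8 / 125 * Γ) ≤ (1 + β) * (1 - cos θ) :=
    mul_le_mul (by linarith only [d3, d4]) c4 (by positivity) (by linarith only [hκ0, d2, d3, d4])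
  have c8 : (1 + β) * (1 - cos θ) ≤ 2 * (Γ / 4) :=
    mul_le_mul (by linarith only [hκ0, hβ2]) c5 (by linarith only [hκ0, d2, c4]) (by norm_num)
  refine (slow_of_cycle hμ hL hγ K hK3 (by linarith only [hκ0, hβ2]) ?_ ?_).mono hρ1.le
  · rw [← hθ, hγμ]; linarith only [hκ0, d2, d5, c6, c7]
  · rw [← hθ, ← hΓ]; linarith only [hκ0, d2, c6, c8]

end Pool.Agent.Work.MP_a6d20f_an
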